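import Mathlib
import Pool.Agent.Helper37.Arb.Goals

namespace Pool.Agent.Helper2.Arb

open Pool.Agent.Helper37.Arb Polynomial

theorem conv_rev (f g f' g' : ℤ → ℝ) (n m : ℤ) (hf : ∀ j, f (n - j) = f' j)
    (hg : ∀ j, g (m - j) = g' j) (i : ℤ) : conv f g (n + m - i) = conv f' g' i := by
  unfold conv
  rw [← finsum_comp_equiv (Equiv.subLeft n)]
  congr 1
  funext j
  simp only [Equiv.subLeft_apply]
  rw [hf j, show n + m - i - (n - j) = m - (i - j) by ring, hg]

/-- The statement for both kinds of tangles. -/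
def Pal : ∀ {s : Bool}, Tangle s → Prop
  | true, T => (∀ i, seq T.data.R i = seq T.data.L (T.data.N - i)) ∧
    (∀ i, seq T.data.b (T.data.N - 1 - i) = seq T.data.b i)
  | false, P => (∀ i, seq P.data.L (P.data.N - i) = seq P.data.L i) ∧
    (∀ i, seq P.data.b (P.data.N - 1 - i) = seq P.data.b i)

theorem swap_id (L₁ R₁ b₁ L₂ R₂ b₂ : ℤ[X]) (h₁ : L₁ - R₁ = (1 - X) * b₁)
    (h₂ : L₂ - R₂ = (1 - X) * b₂) : R₁ * b₂ + b₁ * L₂ = L₁ * b₂ + b₁ * R₂ := by
  have e1 : L₁ = R₁ + (1 - X) * b₁ := by rw [← h₁]; ring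
  have e2 : L₂ = R₂ + (1 - X) * b₂ := by rw [← h₂]; ring
  rw [e1, e2]; ring

theorem pal_all (hS : GoalSeqMul) (hD : GoalData2) : ∀ {s : Bool} (t : Tangle s), Pal t := by
  obtain ⟨-, hmul, hadd, hX, h1⟩ := hS
  have hadd' : ∀ (p q : ℤ[X]) (i : ℤ), seq (p + q) i = seq p i + seq q i := by
    intro p q i; rw [hadd]; rfl
  have hmul' : ∀ (p q : ℤ[X]) (i : ℤ), seq (p * q) i = conv (seq p) (seq q) i := by
    intro p q i; rw [hmul]
  intro s t
  induction t with
  | cross =>
    simp only [Pal, Tangle.data]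
    refine ⟨fun i => ?_, fun i => ?_⟩
    · have : seq (X : ℤ[X]) i = seq (1 : ℤ[X]) (i - 1) := by
        rw [← hX 1 i, mul_one]
      rw [this, h1, h1]
      by_cases hi : i = 1
      · subst hi; simp
      · rw [if_neg (by omega), if_neg (by omega)]
    · rw [h1, h1]
      by_cases hi : i = 0
      · subst hi; simp
      · rw [if_neg (by omega), if_neg hi]
  | stack S T ihS ihT =>
    simp only [Pal, Tangle.data] at *
    obtain ⟨s1, s2⟩ := ihS
    obtain ⟨t1, t2⟩ := ihT
    refine ⟨fun i => ?_, fun i => ?_⟩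
    · rw [hmul', hmul', conv_rev _ _ _ _ _ _ (fun j => (s1 j).symm) (fun j => (t1 j).symm)]
    · have s1' : ∀ j, seq S.data.R (S.data.N - j) = seq S.data.L j := by
        intro j; rw [s1]; congr 1; ring
      rw [hadd', hmul', hmul']
      rw [show S.data.N + T.data.N - 1 - i = S.data.N + (T.data.N - 1) - i by ring,
        conv_rev _ _ _ _ _ _ s1' t2,
        show S.data.N + (T.data.N - 1) - i = (S.data.N - 1) + T.data.N - i by ring,
        conv_rev _ _ _ _ _ _ s2 (fun j => (t1 j).symm),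
        swap_id _ _ _ _ _ _ (hD S).1 (hD T).1, hadd', hmul', hmul']
  | beside P T ihP ihT =>
    simp only [Pal, Tangle.data] at *
    obtain ⟨s1, s2⟩ := ihP
    obtain ⟨t1, t2⟩ := ihT
    refine ⟨fun i => ?_, fun i => ?_⟩
    · rw [hadd', hmul', hmul', hadd', hmul', hmul',
        conv_rev _ _ _ _ _ _ s2 (fun j => (t1 j).symm),
        show P.data.N - 1 + T.data.N - i = P.data.N + (T.data.N - 1) - i by ring,
        conv_rev _ _ _ _ _ _ s1 t2]
    · rw [hmul', show P.data.N - 1 + T.data.N - 1 - i = (P.data.N - 1) + (T.data.N - 1) - i by ring,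
        conv_rev _ _ _ _ _ _ s2 t2, hmul']
  | flip T ihT =>
    simp only [Pal, Tangle.data] at *
    exact ihT
  | opposite S T ihS ihT =>
    simp only [Pal, Tangle.data] at *
    obtain ⟨s1, s2⟩ := ihS
    obtain ⟨t1, t2⟩ := ihT
    refine ⟨fun i => ?_, fun i => ?_⟩
    · have s1' : ∀ j, seq S.data.R (S.data.N - j) = seq S.data.L j := by
        intro j; rw [s1]; congr 1; ring
      rw [hadd', hmul', hmul']
      rw [show S.data.N + T.data.N - 1 - i = S.data.N + (T.data.N - 1) - i by ring,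
        conv_rev _ _ _ _ _ _ s1' t2,
        show S.data.N + (T.data.N - 1) - i = (S.data.N - 1) + T.data.N - i by ring,
        conv_rev _ _ _ _ _ _ s2 (fun j => (t1 j).symm),
        swap_id _ _ _ _ _ _ (hD S).1 (hD T).1, hadd', hmul', hmul']
    · rw [hmul', show S.data.N + T.data.N - 1 - 1 - i = (S.data.N - 1) + (T.data.N - 1) - i by ring,
        conv_rev _ _ _ _ _ _ s2 t2, hmul']
  | sum P Q ihP ihQ =>
    simp only [Pal, Tangle.data] at *
    obtain ⟨s1, s2⟩ := ihP
    obtain ⟨t1, t2⟩ := ihQ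
    refine ⟨fun i => ?_, fun i => ?_⟩
    · rw [hadd', hmul', hmul', hadd', hmul', hmul']
      rw [show P.data.N + Q.data.N - 1 - i = P.data.N + (Q.data.N - 1) - i by ring,
        conv_rev _ _ _ _ _ _ s1 t2,
        show P.data.N + (Q.data.N - 1) - i = (P.data.N - 1) + Q.data.N - i by ring,
        conv_rev _ _ _ _ _ _ s2 t1]
    · rw [hmul', show P.data.N + Q.data.N - 1 - 1 - i = (P.data.N - 1) + (Q.data.N - 1) - i by ring,
        conv_rev _ _ _ _ _ _ s2 t2, hmul']
  | turn P ihP =>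
    simp only [Pal, Tangle.data] at *
    obtain ⟨s1, s2⟩ := ihP
    refine ⟨fun i => ?_, fun i => ?_⟩
    · rw [hX, hX, ← s2 (i - 1)]
      congr 1; ring
    · rw [show P.data.N + 1 - 1 - i = P.data.N - i by ring, s1]

theorem pal : GoalPal := by
  intro hS hD
  exact ⟨fun T => pal_all hS hD T, fun P => pal_all hS hD P⟩

end Pool.Agent.Helper2.Arb
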